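import Pool.Agent.Helper5.LCU.Stmts

/-!
# Joins of good hypergraphs
-/

set_option autoImplicit false

open Finset Pool.Agent.Helper89.UB Pool.Agent.Helper5.LCU

namespace Pool.Agent.Helper43.LCU

theorem BC_div (f g : ℕ → ℝ) (m : ℕ) : BC f g m / (m.factorial : ℝ) =
    ∑ i ∈ range (m + 1), f i / (i.factorial : ℝ) * (g (m - i) / ((m - i).factorial : ℝ)) := by
  have hm : (m.factorial : ℝ) ≠ 0 := by exact_mod_cast m.factorial_ne_zero
  rw [BC, sum_div]
  refine sum_congr rfl fun i hi => ?_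
  have hi' : i ≤ m := Nat.lt_succ_iff.1 (mem_range.1 hi)
  have h1 : (i.factorial : ℝ) ≠ 0 := by exact_mod_cast i.factorial_ne_zero
  have h2 : ((m - i).factorial : ℝ) ≠ 0 := by exact_mod_cast (m - i).factorial_ne_zero
  have h3 : (m.choose i : ℝ) * (i.factorial : ℝ) * ((m - i).factorial : ℝ) = (m.factorial : ℝ) := by
    exact_mod_cast Nat.choose_mul_factorial_mul_factorial hi'
  have h4 : (m.choose i : ℝ) ≠ 0 := by exact_mod_cast (Nat.choose_pos hi').ne'
  rw [← h3]
  field_simp

theorem sum_shift (h : ℕ → ℝ) (w1 w2 j : ℕ) (h1 : ∀ i, i < w1 → h i = 0)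
    (h2 : ∀ i, w1 + j < i → i ≤ w1 + w2 + j → h i = 0) :
    ∑ i ∈ range (w1 + w2 + j + 1), h i = ∑ a ∈ range (j + 1), h (w1 + a) := by
  have e : ∑ a ∈ range (j + 1), h (w1 + a) = ∑ i ∈ (range (j + 1)).image (fun a => w1 + a), h i := by
    rw [sum_image]
    intro x _ y _ hxy
    simp only at hxy
    omega
  rw [e]
  symm
  apply sum_subset
  · intro i hi
    obtain ⟨a, ha, rfl⟩ := mem_image.1 hi
    have := mem_range.1 ha
    exact mem_range.2 (by omega)
  · intro i hi hn
    have hi' := mem_range.1 hi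
    rcases Nat.lt_or_ge i w1 with h3 | h3
    · exact h1 i h3
    · refine h2 i ?_ (by omega)
      by_contra h4
      exact hn (mem_image.2 ⟨i - w1, mem_range.2 (by omega), by omega⟩)

theorem BC_shift (f g : ℕ → ℝ) (w1 w2 j : ℕ) (hf : ∀ i, i < w1 → f i = 0)
    (hg : ∀ i, i < w2 → g i = 0) :
    (j.factorial : ℝ) * BC f g (w1 + w2 + j) / ((w1 + w2 + j).factorial : ℝ) =
      BC (fun a => (a.factorial : ℝ) * f (w1 + a) / ((w1 + a).factorial : ℝ))
        (fun b => (b.factorial : ℝ) * g (w2 + b) / ((w2 + b).factorial : ℝ)) j := by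
  rw [mul_div_assoc, BC_div, sum_shift _ w1 w2 j, BC, mul_sum]
  · refine sum_congr rfl fun a ha => ?_
    have ha' : a ≤ j := Nat.lt_succ_iff.1 (mem_range.1 ha)
    have h3 : (j.choose a : ℝ) * (a.factorial : ℝ) * ((j - a).factorial : ℝ) = (j.factorial : ℝ) := by
      exact_mod_cast Nat.choose_mul_factorial_mul_factorial ha'
    have e : w1 + w2 + j - (w1 + a) = w2 + (j - a) := by omega
    rw [e, ← h3]
    ring
  · intro i hi
    simp only [hf i hi, zero_div, zero_mul]
  · intro i hi hi2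
    have e : g (w1 + w2 + j - i) = 0 := hg _ (by omega)
    simp only [e, zero_div, mul_zero]

theorem st_MJ (hGD : ST_GD) (hJN : ST_JN) (hZB : ST_ZB) (hBC : ST_BC) : ST_MJ := by
  intro n E A B hd he hA hB
  obtain ⟨w1, ⟨K1, hK1, hc1, hk1⟩, hm1, hs1⟩ := (hGD n E A).1 hA
  obtain ⟨w2, ⟨K2, hK2, hc2, hk2⟩, hm2, hs2⟩ := (hGD n E B).1 hB
  have hKd : Disjoint K1 K2 := (hd.mono_left hK1).mono_right hK2
  refine (hGD n E (A ∪ B)).2 ⟨w1 + w2, ⟨K1 ∪ K2, union_subset_union hK1 hK2, ?_, ?_⟩, ?_, ?_⟩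
  · intro u hu v hv huv
    rcases mem_union.1 hu with hu | hu <;> rcases mem_union.1 hv with hv | hv
    · exact hc1 u hu v hv huv
    · exact he u (hK1 hu) v (hK2 hv)
    · rw [pair_comm]
      exact he v (hK1 hv) u (hK2 hu)
    · exact hc2 u hu v hv huv
  · rw [card_union_of_disjoint hKd, hk1, hk2]
  · intro K hK hc
    have e : (K ∩ A) ∪ (K ∩ B) = K := by
      rw [← inter_union_distrib_left]
      exact inter_eq_left.2 hK
    have h1 : (K ∩ A).card ≤ w1 := hm1 _ inter_subset_right fun u hu v hv =>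
      hc u (mem_of_mem_inter_left hu) v (mem_of_mem_inter_left hv)
    have h2 : (K ∩ B).card ≤ w2 := hm2 _ inter_subset_right fun u hu v hv =>
      hc u (mem_of_mem_inter_left hu) v (mem_of_mem_inter_left hv)
    have h3 := card_union_le (K ∩ A) (K ∩ B)
    rw [e] at h3
    omega
  · have key : sq E (A ∪ B) (w1 + w2) = BC (sq E A w1) (sq E B w2) := by
      funext j
      have h := BC_shift (fun i => (sur E A i : ℝ)) (fun i => (sur E B i : ℝ)) w1 w2 j
        (fun i hi => by
          show (sur E A i : ℝ) = 0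
          rw [hZB n E A K1 hK1 hc1 i (by omega)]
          norm_num)
        (fun i hi => by
          show (sur E B i : ℝ) = 0
          rw [hZB n E B K2 hK2 hc2 i (by omega)]
          norm_num)
      rw [← hJN n E A B hd he] at h
      exact h
    rw [key]
    exact hBC _ _ hs1 hs2

end Pool.Agent.Helper43.LCU
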